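import Pool.Agent.H93.CUBE.LStmts
import Pool.Agent.H1.CU.LDX1

/-! Cube project, block LIMIT: modules SHE, FLA, FLB, FLC. -/

set_option autoImplicit false

open Matrix Pool.CM

namespace Pool.H93.Cube

theorem SHE_thm : SHEStmt := by
  intro E _ _ m _ _ G hG
  obtain ⟨a, b, G2, H, H', Bu, Bn, hg, hr, hv, hn, hc⟩ :=
    (Pool.Agent.H1.CU.LFr E).shear G (Pool.Agent.H1.CU.Reg_iff'.mpr hG)
  obtain ⟨h1, h2⟩ := Pool.Agent.H1.CU.gau_of_gauge hg
  have hnf : (Pool.Agent.H1.CU.LFr E).NF G2 Bu Bn := ⟨hr, hv, hn, hc⟩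
  have h3 := (Pool.Agent.H1.CU.morEx E).nf hnf
  have h4 : (Pool.Agent.H1.CU.LF.univ E).NF (G2.map (ex E)) Bu Bn := h3
  rw [← h2] at h4
  exact ⟨Fin a, Fin b, inferInstance, inferInstance, inferInstance, inferInstance, H, H', Bu, Bn,
    h1, Pool.Agent.H1.CU.nf_iff.mp h4⟩

theorem FLB_thm : FLBStmt := by
  intro K _ _ u w _ _ _ _ G Bu Bn h
  obtain ⟨Y, hY⟩ := Pool.Agent.H1.CU.exists_isFlat (Pool.Agent.H1.CU.nf_iff.mpr h)
  exact ⟨Y, hY.reg, hY.val, hY.eq⟩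

theorem FLA_thm : FLAStmt := by
  intro K _ _ u w _ _ _ _ G Bu Bn h q v hv
  set L := Pool.Agent.H1.CU.LF.univ K with hL
  have hnf := Pool.Agent.H1.CU.nf_iff.mpr h
  obtain ⟨Y, hY⟩ := Pool.Agent.H1.CU.exists_isFlat hnf
  have hv' : (L.op G)^[q] v = 0 := by
    rw [hL, Pool.Agent.H1.CU.op_iterate_eq]
    exact hv
  obtain ⟨x, hx⟩ := Pool.Agent.H1.CU.LF.IsFlat.complete hnf hY hv'
  have hreg : ∀ a, L.reg (v a) := by
    intro a
    rw [hx]
    exact L.reg_sum _ fun c _ => L.reg_mul (hY.reg a c) (L.reg_cst _)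
  have hval : ∀ a, L.v0 (v a) = (fromRows (1 : Matrix u u K) (0 : Matrix w u K) *ᵥ x) a := by
    intro a
    rw [hx]
    simp only [Matrix.mulVec, dotProduct, Function.comp]
    rw [L.v0_sum]
    refine Finset.sum_congr rfl fun c _ => ?_
    rw [L.v0_mul (hY.reg a c) (L.reg_cst _), L.v0_cst, ← hY.val]
    rfl
  refine ⟨hreg, fun b => ?_, fun h0 => ?_⟩
  · have h1 := hval (Sum.inr b)
    simp at h1
    exact h1
  · have hx0 : x = 0 := by
      funext a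
      have h1 := hval (Sum.inl a)
      have h2 : L.v0 (v (Sum.inl a)) = 0 := h0 (Sum.inl a)
      rw [h2] at h1
      simp at h1
      exact h1.symm
    rw [hx, hx0]
    have : (L.cst ∘ (0 : u → K)) = 0 := by funext i; simp
    rw [this, Matrix.mulVec_zero]

theorem FLC_thm : FLCStmt := by
  intro K _ _ u w _ _ _ _ G Bu Bn h Y Y' hr hc hY hr' hc' hY'
  exact Pool.Agent.H1.CU.LF.IsFlat.pairing (Pool.Agent.H1.CU.nf_iff.mpr h) ⟨hY, hc, hr⟩
    ⟨Pool.Agent.H1.CU.neg_form.mpr hY', hc', hr'⟩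

end Pool.H93.Cube
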