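import Pool.Agent.H93.CUBE.LStmts
import Pool.Agent.H1.CU.LDX3

/-! Cube project, block LIMIT: modules LD0X, NFL. -/

set_option autoImplicit false

open Matrix Pool.CM

namespace Pool.H93.Cube

theorem LD0X_thm (hNFX : NFXStmt) (_ : FLAStmt) (_ : FLBStmt) (_ : FLCStmt) (_ : EXGStmt) :
    LD0XStmt := by
  intro X E _ A hA m _ _ G n hn
  have : CharZero E := Pool.Agent.H1.CU.charZero_of_ax hA
  obtain ⟨u, w, i1, i2, i3, i4, H, H', Bu, Bn, hi, hnf⟩ := hNFX X E A hA m G n hn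
  obtain ⟨d, _⟩ := Pool.Agent.H1.CU.exists_NFD G hi hnf
  exact ⟨u, i1, i2, ⟨d.toLD0⟩⟩

namespace NFL

variable {E : Type} [Field E] {m : Type} [Fintype m] [DecidableEq m] {G : Matrix m m (RatFunc E)}

/-- two bases of the generalised horizontal vectors -/
theorem comp_Z {u v : Type} [Fintype u] [DecidableEq u] [Fintype v] [DecidableEq v]
    (l : LD0 G u) (l1 : LD0 G v) : ∃ P : Matrix v u E, l.Z = l1.Z * cM P := by
  have hZ : (Pool.Agent.H1.CU.LF.univ E).dM l.Z + G.map (ex E) * l.Z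
      = l.Z * l.N.map (Pool.Agent.H1.CU.LF.univ E).cst := l.hZ
  have hZ0 : (Pool.Agent.H1.CU.LF.univ E).dM l.Z + G.map (ex E) * l.Z
      = l.Z * l.N.map (Pool.Agent.H1.CU.LF.univ E).cst
        + l.Z * (0 : Matrix u u E).map (Pool.Agent.H1.CU.LF.univ E).cst := by
    rw [hZ]
    have : (0 : Matrix u u E).map (Pool.Agent.H1.CU.LF.univ E).cst = 0 := by ext i j; simp
    rw [this, Matrix.mul_zero, add_zero]
  obtain ⟨N, hN⟩ := Pool.Agent.H1.CU.LF.op_nilp l.nil hZ hZ0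
  choose W hW using fun j => Pool.Agent.H1.CU.ld0_compl l1 N _ (hN j)
  refine ⟨Matrix.of fun b j => W j b, ?_⟩
  ext1 i j
  exact hW j i

theorem comp_Z' {u v : Type} [Fintype u] [DecidableEq u] [Fintype v] [DecidableEq v]
    (l : LD0 G u) (l1 : LD0 G v) : ∃ P : Matrix v u E, l.Z' = l1.Z' * cM P := by
  have hZ : (Pool.Agent.H1.CU.LF.univ E).dM l.Z' + -(G.map (ex E))ᵀ * l.Z'
      = l.Z' * (-l.Nᵀ).map (Pool.Agent.H1.CU.LF.univ E).cst :=
    Pool.Agent.H1.CU.neg_form'.mpr l.hZ'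
  have hZ0 : (Pool.Agent.H1.CU.LF.univ E).dM l.Z' + -(G.map (ex E))ᵀ * l.Z'
      = l.Z' * (-l.Nᵀ).map (Pool.Agent.H1.CU.LF.univ E).cst
        + l.Z' * (0 : Matrix u u E).map (Pool.Agent.H1.CU.LF.univ E).cst := by
    rw [hZ]
    have : (0 : Matrix u u E).map (Pool.Agent.H1.CU.LF.univ E).cst = 0 := by ext i j; simp
    rw [this, Matrix.mul_zero, add_zero]
  have hnil' : IsNilpotent (-l.Nᵀ) := by
    obtain ⟨k, hk⟩ := l.nil
    refine IsNilpotent.neg ⟨k, ?_⟩
    rw [← Matrix.transpose_pow, hk, Matrix.transpose_zero]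
  obtain ⟨N, hN⟩ := Pool.Agent.H1.CU.LF.op_nilp hnil' hZ hZ0
  choose W hW using fun j => Pool.Agent.H1.CU.ld0_compl' l1 N _ (hN j)
  refine ⟨Matrix.of fun b j => W j b, ?_⟩
  ext1 i j
  exact hW j i

theorem cM_inj {a b : Type} {P Q : Matrix a b E} (h : cM P = cM Q) : P = Q := by
  ext i j
  exact HahnSeries.C_injective (congrFun (congrFun h i) j)

theorem cM_mul {a b c : Type} [Fintype b] (P : Matrix a b E) (Q : Matrix b c E) :
    cM (P * Q) = cM P * cM Q := Matrix.map_mul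

theorem cM_one {a : Type} [DecidableEq a] : cM (1 : Matrix a a E) = 1 := by
  rw [cM]
  simp

/-- transition matrices between two limit data -/
theorem trans {u v : Type} [Fintype u] [DecidableEq u] [Fintype v] [DecidableEq v]
    (l : LD0 G u) (l1 : LD0 G v) : ∃ (P : Matrix v u E) (Q : Matrix u v E), P * Q = 1 ∧ Q * P = 1 ∧
      l.Z = l1.Z * cM P ∧ l.Z' = l1.Z' * cM Qᵀ ∧ l.N = Q * l1.N * P := by
  obtain ⟨P, hP⟩ := comp_Z l l1
  obtain ⟨Q, hQ⟩ := comp_Z l1 l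
  obtain ⟨R, hR⟩ := comp_Z' l l1
  have h1 : P * Q = 1 := by
    have h2 : l1.Z = l1.Z * (cM P * cM Q) := by
      conv_lhs => rw [hQ, hP]
      rw [Matrix.mul_assoc]
    have h3 := congrArg (fun M => l1.Z'.transpose * M) h2
    simp only [← Matrix.mul_assoc, l1.ZZ, Matrix.one_mul] at h3
    apply cM_inj
    rw [cM_mul, cM_one, ← h3]
  have h2 : Q * P = 1 := by
    have h2 : l.Z = l.Z * (cM Q * cM P) := by
      conv_lhs => rw [hP, hQ]
      rw [Matrix.mul_assoc]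
    have h3 := congrArg (fun M => l.Z'.transpose * M) h2
    simp only [← Matrix.mul_assoc, l.ZZ, Matrix.one_mul] at h3
    apply cM_inj
    rw [cM_mul, cM_one, ← h3]
  have h3 : R.transpose * P = 1 := by
    have h4 := l.ZZ
    rw [hP, hR, Matrix.transpose_mul, Matrix.mul_assoc, ← Matrix.mul_assoc l1.Z'.transpose,
      l1.ZZ, Matrix.one_mul] at h4
    apply cM_inj
    rw [cM_mul, cM_one]
    exact h4
  have h4 : R = Q.transpose := by
    have h5 : R.transpose = Q := by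
      calc R.transpose = R.transpose * (P * Q) := by rw [h1, Matrix.mul_one]
        _ = R.transpose * P * Q := by rw [Matrix.mul_assoc]
        _ = Q := by rw [h3, Matrix.one_mul]
    rw [← h5, Matrix.transpose_transpose]
  refine ⟨P, Q, h1, h2, hP, by rw [hR, h4], ?_⟩
  have h5 := l.hZ
  have h6 : (l1.Z * cM P).map nab = l1.Z.map nab * cM P := by
    have h7 := (Pool.Agent.H1.CU.LF.dM_mul (L := Pool.Agent.H1.CU.LF.univ E) l1.Z (cM P))
    have h8 : (Pool.Agent.H1.CU.LF.univ E).dM (cM P) = 0 :=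
      Pool.Agent.H1.CU.LF.dM_cst (L := Pool.Agent.H1.CU.LF.univ E) P
    rw [h8, Matrix.mul_zero, add_zero] at h7
    exact h7
  have h9 : l.Z.map nab + G.map (ex E) * l.Z = l1.Z * cM l1.N * cM P := by
    rw [hP, h6, ← Matrix.mul_assoc, ← Matrix.add_mul, l1.hZ]
  rw [h9, hQ] at h5
  have h10 : l.Z * cM (Q * l1.N * P) = l.Z * cM l.N := by
    rw [← h5, cM_mul, cM_mul]
    simp only [Matrix.mul_assoc]
  have h11 := congrArg (fun M => l.Z'.transpose * M) h10
  simp only [← Matrix.mul_assoc, l.ZZ, Matrix.one_mul] at h11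
  exact (cM_inj h11).symm

end NFL

theorem NFL_thm (hNFX : NFXStmt) (_ : FLAStmt) (_ : FLBStmt) (_ : EXGStmt) : NFLStmt := by
  intro X E _ A hA m _ _ G n hn u _ _ d
  have : CharZero E := Pool.Agent.H1.CU.charZero_of_ax hA
  obtain ⟨v, w, i1, i2, i3, i4, H, H', Bu, Bn, hi, hnf⟩ := hNFX X E A hA m G n hn
  obtain ⟨d1, _⟩ := Pool.Agent.H1.CU.exists_NFD G hi hnf
  obtain ⟨P, Q, hPQ, hQP, h1, h2, h3⟩ := NFL.trans d d1.toLD0
  obtain ⟨d2, e1, e2, e3⟩ := d1.change hPQ hQP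
  have hZ : d.Z = d2.Z := by rw [e1]; exact h1
  have hZ' : d.Z' = d2.Z' := by rw [e2]; exact h2
  have hN : d.N = d2.Bu := by rw [e3]; exact h3
  refine ⟨w, i3, i4, d2.H, d2.H', d2.Bn, d2.inv, by rw [hN]; exact d2.nf, ?_, ?_, ?_, ?_⟩
  · have : d2.H'.map (ex E) * d.Z = d2.Y := by
      rw [hZ, Pool.Agent.H1.CU.NFD.Z, ← Matrix.mul_assoc, ← Matrix.map_mul, d2.inv.1]
      simp
    rw [this]
    exact d2.rY
  · have : d2.H'.map (ex E) * d.Z = d2.Y := by
      rw [hZ, Pool.Agent.H1.CU.NFD.Z, ← Matrix.mul_assoc, ← Matrix.map_mul, d2.inv.1]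
      simp
    rw [this]
    exact d2.cY
  · have : (d2.H.map (ex E)).transpose * d.Z' = d2.Y' := by
      rw [hZ', Pool.Agent.H1.CU.NFD.Z', ← Matrix.mul_assoc, ← Matrix.transpose_mul,
        ← Matrix.map_mul, d2.inv.1]
      simp
    rw [this]
    exact d2.rY'
  · have : (d2.H.map (ex E)).transpose * d.Z' = d2.Y' := by
      rw [hZ', Pool.Agent.H1.CU.NFD.Z', ← Matrix.mul_assoc, ← Matrix.transpose_mul,
        ← Matrix.map_mul, d2.inv.1]
      simp
    rw [this]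
    exact d2.cY'

end Pool.H93.Cube
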